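import Pool.Agent.W743.HP.Stm

set_option autoImplicit false

open Set Filter Topology

namespace Pool.Agent.W766.HP.Num0

open Pool.Agent.W743.HP

/-- lower bound of a product -/
def lo (c u v : ℤ) : ℤ := if 0 ≤ c then c * u else c * v

/-- upper bound of a product -/
def hi (c u v : ℤ) : ℤ := if 0 ≤ c then c * v else c * u

/-- rounded down -/
def fd (a b : ℤ) : ℤ := a / b

/-- rounded up -/
def cd' (a b : ℤ) : ℤ := -((-a) / b)

theorem fd_le (a b : ℤ) (hb : 0 < b) : ((fd a b : ℤ) : ℝ) ≤ (a : ℝ) / b := by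
  have hb' : (0 : ℝ) < b := by exact_mod_cast hb
  rw [le_div_iff₀ hb']
  exact_mod_cast Int.ediv_mul_le a hb.ne'

theorem le_cd (a b : ℤ) (hb : 0 < b) : (a : ℝ) / b ≤ ((cd' a b : ℤ) : ℝ) := by
  have h := fd_le (-a) b hb
  unfold cd'
  unfold fd at h
  push_cast at h ⊢
  rw [neg_div] at h
  linarith

theorem lo_le (c u v : ℤ) (C X : ℝ) (hc : (c : ℝ) ≤ C) (h0 : 0 ≤ u) (hu : (u : ℝ) ≤ X) (hv : X ≤ v) :
    ((lo c u v : ℤ) : ℝ) ≤ C * X := by
  have h0' : (0 : ℝ) ≤ u := by exact_mod_cast h0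
  unfold lo
  split_ifs with h
  · have h' : (0 : ℝ) ≤ c := by exact_mod_cast h
    push_cast
    exact mul_le_mul hc hu h0' (h'.trans hc)
  · have h' : (c : ℝ) < 0 := by exact_mod_cast (not_le.1 h)
    push_cast
    nlinarith

theorem le_hi (c u v : ℤ) (C X : ℝ) (hc : C ≤ c) (h0 : 0 ≤ u) (hu : (u : ℝ) ≤ X) (hv : X ≤ v) :
    C * X ≤ ((hi c u v : ℤ) : ℝ) := by
  have h0' : (0 : ℝ) ≤ u := by exact_mod_cast h0
  unfold hi
  split_ifs with h
  · have h' : (0 : ℝ) ≤ c := by exact_mod_cast h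
    push_cast
    nlinarith
  · have h' : (c : ℝ) < 0 := by exact_mod_cast (not_le.1 h)
    push_cast
    nlinarith

/-- the state of the interval computation -/
structure St where
  cl : ℤ
  ch : ℤ
  pl : ℤ
  ph : ℤ
  rl : ℤ
  rh : ℤ
  ul : ℤ
  uh : ℤ
  s0 : ℤ
  s1l : ℤ
  s1u : ℤ
  s2u : ℤ

/-- the scale -/
def SS' : ℤ := 1000000000000000

/-- one step; `a b` are bounds of `5000 α`, `p q` bounds of `1000 x` -/
def step (a b p q : ℤ) (j : ℕ) (s : St) : St where
  cl := fd (s.pl + (s.rl - cd' (hi s.ch a b) 5000)) (((j + 1) * (j + 1) : ℕ) : ℤ)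
  ch := cd' (s.ph + (s.rh - fd (lo s.cl a b) 5000)) (((j + 1) * (j + 1) : ℕ) : ℤ)
  pl := s.pl + (s.rl - cd' (hi s.ch a b) 5000)
  ph := s.ph + (s.rh - fd (lo s.cl a b) 5000)
  rl := s.rl - cd' (hi s.ch a b) 5000
  rh := s.rh - fd (lo s.cl a b) 5000
  ul := fd (s.ul * p) 1000
  uh := cd' (s.uh * q) 1000
  s0 := s.s0 + fd (lo s.cl s.ul s.uh) SS'
  s1l := s.s1l + fd ((j : ℤ) * lo s.cl s.ul s.uh) SS'
  s1u := s.s1u + cd' ((j : ℤ) * hi s.ch s.ul s.uh) SS'
  s2u := s.s2u + cd' (((j * (j - 1) : ℕ) : ℤ) * hi s.ch s.ul s.uh) SS'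

/-- the computation -/
def run (a b p q : ℤ) : ℕ → St
  | 0 => ⟨SS', SS', 0, 0, 0, 0, SS', SS', 0, 0, 0, 0⟩
  | j + 1 => step a b p q j (run a b p q j)

/-- the real scale -/
noncomputable def SR : ℝ := 1000000000000000

theorem SR_pos : 0 < SR := by unfold SR; norm_num

theorem SS_cast : ((SS' : ℤ) : ℝ) = SR := by unfold SS' SR; norm_num

theorem SS_pos : 0 < SS' := by unfold SS'; norm_num

theorem cf_succ (α : ℝ) (j : ℕ) :
    (cf 0 α (j + 1)).2.2 = (cf 0 α j).2.2 - α * c 0 α j ∧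
    (cf 0 α (j + 1)).2.1 = (cf 0 α j).2.1 + ((cf 0 α j).2.2 - α * c 0 α j) ∧
    c 0 α (j + 1) = ((cf 0 α j).2.1 + ((cf 0 α j).2.2 - α * c 0 α j)) / (((j + 1) * (j + 1) : ℕ) : ℝ) := by
  refine ⟨rfl, rfl, ?_⟩
  unfold c
  rw [cf]
  simp only
  push_cast
  simp

/-- enclosure -/
structure Enc (α x : ℝ) (j : ℕ) (s : St) : Prop where
  cl : (s.cl : ℝ) ≤ SR * c 0 α j
  ch : SR * c 0 α j ≤ s.ch
  pl : (s.pl : ℝ) ≤ SR * (cf 0 α j).2.1
  ph : SR * (cf 0 α j).2.1 ≤ s.ph
  rl : (s.rl : ℝ) ≤ SR * (cf 0 α j).2.2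
  rh : SR * (cf 0 α j).2.2 ≤ s.rh
  u0 : 0 ≤ s.ul
  ul : (s.ul : ℝ) ≤ SR * x ^ j
  uh : SR * x ^ j ≤ s.uh
  s0 : (s.s0 : ℝ) ≤ SR * ∑ i ∈ Finset.range j, c 0 α i * x ^ i
  s1l : (s.s1l : ℝ) ≤ SR * ∑ i ∈ Finset.range j, (i : ℝ) * (c 0 α i * x ^ i)
  s1u : SR * ∑ i ∈ Finset.range j, (i : ℝ) * (c 0 α i * x ^ i) ≤ s.s1u
  s2u : SR * ∑ i ∈ Finset.range j, ((i * (i - 1) : ℕ) : ℝ) * (c 0 α i * x ^ i) ≤ s.s2u

theorem wlo (w : ℕ) (l : ℤ) (C X : ℝ) (h : (l : ℝ) ≤ SR * C * (SR * X)) :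
    ((fd ((w : ℤ) * l) SS' : ℤ) : ℝ) ≤ SR * ((w : ℝ) * (C * X)) := by
  refine (fd_le _ _ SS_pos).trans ?_
  rw [SS_cast, div_le_iff₀ SR_pos]
  push_cast
  have : (w : ℝ) * l ≤ w * (SR * C * (SR * X)) := mul_le_mul_of_nonneg_left h (Nat.cast_nonneg _)
  calc (w : ℝ) * l ≤ w * (SR * C * (SR * X)) := this
    _ = _ := by ring

theorem whi (w : ℕ) (l : ℤ) (C X : ℝ) (h : SR * C * (SR * X) ≤ (l : ℝ)) :
    SR * ((w : ℝ) * (C * X)) ≤ ((cd' ((w : ℤ) * l) SS' : ℤ) : ℝ) := by
  refine le_trans ?_ (le_cd _ _ SS_pos)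
  rw [SS_cast, le_div_iff₀ SR_pos]
  push_cast
  have : w * (SR * C * (SR * X)) ≤ (w : ℝ) * l := mul_le_mul_of_nonneg_left h (Nat.cast_nonneg _)
  calc _ = w * (SR * C * (SR * X)) := by ring
    _ ≤ _ := this

theorem enc_step {α x : ℝ} {a b p q : ℤ} (ha : 0 ≤ a) (hp : 0 ≤ p) (haα : (a : ℝ) ≤ 5000 * α)
    (hbα : 5000 * α ≤ b) (hpx : (p : ℝ) ≤ 1000 * x) (hqx : 1000 * x ≤ q) {j : ℕ} {s : St}
    (h : Enc α x j s) : Enc α x (j + 1) (step a b p q j s) := by
  obtain ⟨hr, hP, hc⟩ := cf_succ α j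
  have hlo := lo_le s.cl a b _ _ h.cl ha haα hbα
  have hhi := le_hi s.ch a b _ _ h.ch ha haα hbα
  have h1 : ((fd (lo s.cl a b) 5000 : ℤ) : ℝ) ≤ SR * (α * c 0 α j) := by
    refine (fd_le _ _ (by norm_num)).trans ?_
    rw [div_le_iff₀ (by norm_num)]
    push_cast
    nlinarith [hlo]
  have h2 : SR * (α * c 0 α j) ≤ ((cd' (hi s.ch a b) 5000 : ℤ) : ℝ) := by
    refine le_trans ?_ (le_cd _ _ (by norm_num))
    rw [le_div_iff₀ (by norm_num)]
    push_cast
    nlinarith [hhi]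
  have hrl : (((s.rl - cd' (hi s.ch a b) 5000 : ℤ)) : ℝ) ≤ SR * ((cf 0 α j).2.2 - α * c 0 α j) := by
    push_cast
    have := h.rl
    linarith
  have hrh : SR * ((cf 0 α j).2.2 - α * c 0 α j) ≤ ((s.rh - fd (lo s.cl a b) 5000 : ℤ) : ℝ) := by
    push_cast
    have := h.rh
    linarith
  have hpl : (((s.pl + (s.rl - cd' (hi s.ch a b) 5000) : ℤ)) : ℝ) ≤
      SR * ((cf 0 α j).2.1 + ((cf 0 α j).2.2 - α * c 0 α j)) := by
    rw [Int.cast_add]
    have := h.pl
    linarith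
  have hph : SR * ((cf 0 α j).2.1 + ((cf 0 α j).2.2 - α * c 0 α j)) ≤
      ((s.ph + (s.rh - fd (lo s.cl a b) 5000) : ℤ) : ℝ) := by
    rw [Int.cast_add]
    have := h.ph
    linarith
  have hjp : (0 : ℤ) < (((j + 1) * (j + 1) : ℕ) : ℤ) := by positivity
  have hjr : (0 : ℝ) < (((j + 1) * (j + 1) : ℕ) : ℝ) := by positivity
  have hL := lo_le s.cl s.ul s.uh _ _ h.cl h.u0 h.ul h.uh
  have hH := le_hi s.ch s.ul s.uh _ _ h.ch h.u0 h.ul h.uh
  have hx0 : 0 ≤ x := by
    have : (0 : ℝ) ≤ p := by exact_mod_cast hp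
    linarith
  refine ⟨?_, ?_, ?_, ?_, ?_, ?_, ?_, ?_, ?_, ?_, ?_, ?_, ?_⟩
  · refine (fd_le _ _ hjp).trans ?_
    rw [hc, ← mul_div_assoc]
    rw [Int.cast_natCast]
    exact div_le_div_of_nonneg_right hpl hjr.le
  · refine le_trans ?_ (le_cd _ _ hjp)
    rw [hc, ← mul_div_assoc]
    rw [Int.cast_natCast]
    exact div_le_div_of_nonneg_right hph hjr.le
  · rw [hP]; exact hpl
  · rw [hP]; exact hph
  · rw [hr]; exact hrl
  · rw [hr]; exact hrh
  · exact Int.ediv_nonneg (mul_nonneg h.u0 hp) (by norm_num)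
  · refine (fd_le _ _ (by norm_num)).trans ?_
    rw [div_le_iff₀ (by norm_num), pow_succ]
    push_cast
    have h3 := h.ul
    have h4 : (0 : ℝ) ≤ s.ul := by exact_mod_cast h.u0
    have h5 : (0 : ℝ) ≤ p := by exact_mod_cast hp
    have h6 : (s.ul : ℝ) * p ≤ (SR * x ^ j) * (1000 * x) := mul_le_mul h3 hpx h5 (h4.trans h3)
    linarith
  · refine le_trans ?_ (le_cd _ _ (by norm_num))
    rw [le_div_iff₀ (by norm_num), pow_succ]
    push_cast
    have h3 := h.uh
    have h6 : (SR * x ^ j) * (1000 * x) ≤ (s.uh : ℝ) * q :=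
      mul_le_mul h3 hqx (by positivity) (le_trans (mul_nonneg SR_pos.le (by positivity)) h3)
    linarith
  · rw [Finset.sum_range_succ, mul_add]
    have h3 := wlo 1 (lo s.cl s.ul s.uh) (c 0 α j) (x ^ j) hL
    simp only [Nat.cast_one, one_mul] at h3
    have h4 := h.s0
    change ((s.s0 + fd (lo s.cl s.ul s.uh) SS' : ℤ) : ℝ) ≤ _
    rw [Int.cast_add]
    linarith
  · rw [Finset.sum_range_succ, mul_add]
    have h3 := wlo j (lo s.cl s.ul s.uh) (c 0 α j) (x ^ j) hL
    have h4 := h.s1l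
    change ((s.s1l + fd ((j : ℤ) * lo s.cl s.ul s.uh) SS' : ℤ) : ℝ) ≤ _
    rw [Int.cast_add]
    linarith
  · rw [Finset.sum_range_succ, mul_add]
    have h3 := whi j (hi s.ch s.ul s.uh) (c 0 α j) (x ^ j) hH
    have h4 := h.s1u
    change _ ≤ ((s.s1u + cd' ((j : ℤ) * hi s.ch s.ul s.uh) SS' : ℤ) : ℝ)
    rw [Int.cast_add]
    linarith
  · rw [Finset.sum_range_succ, mul_add]
    have h3 := whi (j * (j - 1)) (hi s.ch s.ul s.uh) (c 0 α j) (x ^ j) hH
    have h4 := h.s2u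
    change _ ≤ ((s.s2u + cd' (((j * (j - 1) : ℕ) : ℤ) * hi s.ch s.ul s.uh) SS' : ℤ) : ℝ)
    rw [Int.cast_add]
    linarith

theorem enc_run {α x : ℝ} {a b p q : ℤ} (ha : 0 ≤ a) (hp : 0 ≤ p) (haα : (a : ℝ) ≤ 5000 * α)
    (hbα : 5000 * α ≤ b) (hpx : (p : ℝ) ≤ 1000 * x) (hqx : 1000 * x ≤ q) (n : ℕ) :
    Enc α x n (run a b p q n) := by
  induction n with
  | zero =>
    refine ⟨?_, ?_, ?_, ?_, ?_, ?_, ?_, ?_, ?_, ?_, ?_, ?_, ?_⟩
    · change ((SS' : ℤ) : ℝ) ≤ SR * 1
      rw [SS_cast, mul_one]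
    · change SR * 1 ≤ ((SS' : ℤ) : ℝ)
      rw [SS_cast, mul_one]
    · simp [run, cf]
    · simp [run, cf]
    · simp [run, cf]
    · simp [run, cf]
    · exact SS_pos.le
    · change ((SS' : ℤ) : ℝ) ≤ SR * x ^ 0
      rw [SS_cast, pow_zero, mul_one]
    · change SR * x ^ 0 ≤ ((SS' : ℤ) : ℝ)
      rw [SS_cast, pow_zero, mul_one]
    · simp [run]
    · simp [run]
    · simp [run]
    · simp [run]
  | succ n ih => exact enc_step ha hp haα hbα hpx hqx ih

/-! ### The tail -/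

/-- the tail bound -/
noncomputable def tb (j : ℕ) : ℝ := (j : ℝ) ^ 2 * ((25 + j).choose j : ℝ) * (47 / 125) ^ j

theorem tb_succ (j : ℕ) (hj : 100 ≤ j) : tb (j + 1) ≤ 1 / 2 * tb j := by
  unfold tb
  have h1 : ((25 + (j + 1)).choose (j + 1) : ℝ) * (j + 1) = (25 + j).choose j * (25 + j + 1) := by
    have h2 := Nat.add_one_mul_choose_eq (25 + j) j
    have h3 : (25 + j + 1).choose (j + 1) = (25 + (j + 1)).choose (j + 1) := rfl
    rw [h3] at h2
    have h4 : ((25 + j : ℕ) + 1 : ℝ) * ((25 + j).choose j : ℝ) =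
        ((25 + (j + 1)).choose (j + 1) : ℝ) * (j + 1) := by exact_mod_cast h2
    push_cast at h4
    linarith
  have hj' : (100 : ℝ) ≤ j := by exact_mod_cast hj
  have hpos : (0 : ℝ) < (j : ℝ) + 1 := by positivity
  have h4 : ((25 + (j + 1)).choose (j + 1) : ℝ) = (25 + j).choose j * (25 + j + 1) / (j + 1) := by
    rw [eq_div_iff hpos.ne', h1]
  rw [h4, pow_succ (47 / 125 : ℝ) j]
  push_cast
  have h5 : ((j : ℝ) + 1) ^ 2 * ((25 + j).choose j * (25 + j + 1) / (j + 1)) * ((47 / 125) ^ j * (47 / 125)) =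
      (((j : ℝ) + 1) * (25 + j + 1) * (47 / 125)) * (((25 + j).choose j : ℝ) * (47 / 125) ^ j) := by
    field_simp
  rw [h5]
  have h6 : ((j : ℝ) + 1) * (25 + j + 1) * (47 / 125) ≤ 1 / 2 * (j : ℝ) ^ 2 := by nlinarith
  have h7 : (0 : ℝ) ≤ ((25 + j).choose j : ℝ) * (47 / 125) ^ j := by positivity
  calc _ ≤ (1 / 2 * (j : ℝ) ^ 2) * (((25 + j).choose j : ℝ) * (47 / 125) ^ j) :=
        mul_le_mul_of_nonneg_right h6 h7
    _ = _ := by ring

theorem tb_geom (i : ℕ) : tb (100 + i) ≤ (1 / 2) ^ i * tb 100 := by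
  induction i with
  | zero => simp
  | succ i ih =>
    have := tb_succ (100 + i) (by omega)
    rw [pow_succ]
    calc tb (100 + (i + 1)) ≤ 1 / 2 * tb (100 + i) := this
      _ ≤ 1 / 2 * ((1 / 2) ^ i * tb 100) := by linarith
      _ = _ := by ring

theorem tb_100 : tb 100 ≤ 1 / 10 ^ 6 := by
  unfold tb
  have : ((25 + 100).choose 100 : ℕ) = 130054841538480192455912505 := by decide +kernel
  rw [this]
  norm_num

theorem tail (f : ℕ → ℝ) (hf : Summable f) (hb : ∀ j, 100 ≤ j → |f j| ≤ tb j) :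
    |∑' j, f j - ∑ i ∈ Finset.range 100, f i| ≤ 1 / 10 ^ 5 := by
  have h1 := hf.sum_add_tsum_nat_add 100
  have h2 : ∑' j, f j - ∑ i ∈ Finset.range 100, f i = ∑' i, f (i + 100) := by linarith
  rw [h2]
  have h3 : HasSum (fun i : ℕ => (1 / 2 : ℝ) ^ i * tb 100) (2 * tb 100) :=
    hasSum_geometric_two.mul_right _
  have h4 := tsum_of_norm_bounded h3 (f := fun i => f (i + 100)) fun i => by
    rw [Real.norm_eq_abs]
    refine (hb _ (by omega)).trans ?_
    rw [add_comm]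
    exact tb_geom i
  rw [Real.norm_eq_abs] at h4
  have h5 := tb_100
  calc _ ≤ 2 * tb 100 := h4
    _ ≤ 1 / 10 ^ 5 := by linarith

section main
variable (hBD : S_BD) (hREG : S_REG)
include hBD hREG

theorem term_le {α x : ℝ} (h0 : 0 ≤ α) (h1 : α ≤ 25) (hx0 : 0 ≤ x) (hx : x ≤ 47 / 125) (w j : ℕ)
    (hw : w ≤ j ^ 2) : |(w : ℝ) * (c 0 α j * x ^ j)| ≤ tb j := by
  have h2 := ((hBD.1 0 α 25 h0 (by exact_mod_cast h1)) j).1
  rw [abs_mul, abs_mul, abs_of_nonneg (Nat.cast_nonneg w), abs_of_nonneg (pow_nonneg hx0 j)]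
  unfold tb
  rw [mul_assoc]
  have hw' : (w : ℝ) ≤ (j : ℝ) ^ 2 := by exact_mod_cast hw
  refine mul_le_mul hw' ?_ (by positivity) (by positivity)
  exact mul_le_mul h2 (pow_le_pow_left₀ hx0 hx j) (by positivity) (by positivity)

theorem g0 {α x : ℝ} (h0 : 0 ≤ α) (h1 : α ≤ 25) (hx0 : 0 ≤ x) (hx : x ≤ 47 / 125) :
    |G 0 α x - ∑ i ∈ Finset.range 100, c 0 α i * x ^ i| ≤ 1 / 10 ^ 5 := by
  have hr := hREG.1 0 α x h0 (by rw [abs_of_nonneg hx0]; linarith)
  refine tail _ hr.1.of_abs fun j hj => ?_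
  have := term_le hBD hREG h0 h1 hx0 hx 1 j (Nat.one_le_pow _ _ (by omega))
  simpa using this

theorem g1 {α x : ℝ} (h0 : 0 ≤ α) (h1 : α ≤ 25) (hx0 : 0 ≤ x) (hx : x ≤ 47 / 125) :
    |x * G1 0 α x - ∑ i ∈ Finset.range 100, (i : ℝ) * (c 0 α i * x ^ i)| ≤ 1 / 10 ^ 5 := by
  have hr := (hREG.1 0 α x h0 (by rw [abs_of_nonneg hx0]; linarith)).2.1.of_abs
  have hs1 : Summable fun j : ℕ => ((j + 1 : ℕ) : ℝ) * (c 0 α (j + 1) * x ^ (j + 1)) := by
    refine (hr.mul_left x).congr fun j => ?_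
    push_cast
    ring
  have hs : Summable fun j : ℕ => (j : ℝ) * (c 0 α j * x ^ j) := (summable_nat_add_iff 1).1 hs1
  have he : x * G1 0 α x = ∑' j : ℕ, (j : ℝ) * (c 0 α j * x ^ j) := by
    rw [hs.tsum_eq_zero_add]
    unfold G1
    rw [← tsum_mul_left]
    simp only [Nat.cast_zero, zero_mul, zero_add]
    refine tsum_congr fun j => ?_
    push_cast
    ring
  rw [he]
  refine tail _ hs fun j hj => ?_
  exact term_le hBD hREG h0 h1 hx0 hx j j (by nlinarith)

theorem g2 {α x : ℝ} (h0 : 0 ≤ α) (h1 : α ≤ 25) (hx0 : 0 ≤ x) (hx : x ≤ 47 / 125) :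
    |x ^ 2 * G2 0 α x - ∑ i ∈ Finset.range 100, ((i * (i - 1) : ℕ) : ℝ) * (c 0 α i * x ^ i)| ≤
      1 / 10 ^ 5 := by
  have hr := (hREG.1 0 α x h0 (by rw [abs_of_nonneg hx0]; linarith)).2.2.1.of_abs
  have hs1 : Summable fun j : ℕ => (((j + 2) * (j + 2 - 1) : ℕ) : ℝ) * (c 0 α (j + 2) * x ^ (j + 2)) := by
    refine (hr.mul_left (x ^ 2)).congr fun j => ?_
    rw [show j + 2 - 1 = j + 1 by omega]
    push_cast
    ring
  have hs : Summable fun j : ℕ => ((j * (j - 1) : ℕ) : ℝ) * (c 0 α j * x ^ j) :=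
    (summable_nat_add_iff 2).1 hs1
  have he : x ^ 2 * G2 0 α x = ∑' j : ℕ, ((j * (j - 1) : ℕ) : ℝ) * (c 0 α j * x ^ j) := by
    rw [← hs.sum_add_tsum_nat_add 2]
    unfold G2
    rw [← tsum_mul_left]
    simp only [Finset.sum_range_succ, Finset.sum_range_zero, zero_mul, Nat.cast_zero, Nat.sub_self,
      mul_zero, zero_add]
    refine tsum_congr fun j => ?_
    rw [show j + 2 - 1 = j + 1 by omega]
    push_cast
    ring
  rw [he]
  refine tail _ hs fun j hj => ?_
  refine term_le hBD hREG h0 h1 hx0 hx _ j ?_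
  calc j * (j - 1) ≤ j * j := Nat.mul_le_mul_left _ (Nat.sub_le _ _)
    _ = j ^ 2 := by ring

theorem pos0 {α x : ℝ} {a b p q : ℤ} (ha : 0 ≤ a) (hp : 0 ≤ p) (haα : (a : ℝ) ≤ 5000 * α)
    (hbα : 5000 * α ≤ b) (hpx : (p : ℝ) ≤ 1000 * x) (hqx : 1000 * x ≤ q) (hb : b ≤ 125000)
    (hq : q ≤ 376) (h : 100000000000 < (run a b p q 100).s0) : 0 < G 0 α x := by
  have he := enc_run ha hp haα hbα hpx hqx 100
  have ha' : (0 : ℝ) ≤ a := by exact_mod_cast ha
  have hp' : (0 : ℝ) ≤ p := by exact_mod_cast hp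
  have hb' : (b : ℝ) ≤ 125000 := by exact_mod_cast hb
  have hq' : (q : ℝ) ≤ 376 := by exact_mod_cast hq
  have hg := abs_le.1 (g0 hBD hREG (α := α) (x := x) (by linarith) (by linarith) (by linarith) (by linarith))
  have h' : (100000000000 : ℝ) < (run a b p q 100).s0 := by exact_mod_cast h
  have h2 := he.s0
  unfold SR at h2
  linarith [hg.1]

theorem neg2 {α x : ℝ} {a b p q : ℤ} (ha : 0 ≤ a) (hp : 0 < p) (haα : (a : ℝ) ≤ 5000 * α)
    (hbα : 5000 * α ≤ b) (hpx : (p : ℝ) ≤ 1000 * x) (hqx : 1000 * x ≤ q) (hb : b ≤ 125000)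
    (hq : q ≤ 376) (h : (run a b p q 100).s2u < -100000000000) : G2 0 α x < 0 := by
  have he := enc_run ha hp.le haα hbα hpx hqx 100
  have ha' : (0 : ℝ) ≤ a := by exact_mod_cast ha
  have hp' : (0 : ℝ) < p := by exact_mod_cast hp
  have hb' : (b : ℝ) ≤ 125000 := by exact_mod_cast hb
  have hq' : (q : ℝ) ≤ 376 := by exact_mod_cast hq
  have hg := abs_le.1 (g2 hBD hREG (α := α) (x := x) (by linarith) (by linarith) (by linarith) (by linarith))
  have h' : ((run a b p q 100).s2u : ℝ) < -100000000000 := by exact_mod_cast h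
  have h2 := he.s2u
  unfold SR at h2
  have h3 : x ^ 2 * G2 0 α x < 0 := by linarith [hg.2]
  have hx : 0 < x ^ 2 := by
    have : 0 < x := by linarith
    positivity
  by_contra hc
  push Not at hc
  have := mul_nonneg hx.le hc
  linarith

theorem pos1 {α x : ℝ} {a b p q : ℤ} (ha : 0 ≤ a) (hp : 0 < p) (haα : (a : ℝ) ≤ 5000 * α)
    (hbα : 5000 * α ≤ b) (hpx : (p : ℝ) ≤ 1000 * x) (hqx : 1000 * x ≤ q) (hb : b ≤ 125000)
    (hq : q ≤ 376) (h : 100000000000 < (run a b p q 100).s1l) : 0 < G1 0 α x := by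
  have he := enc_run ha hp.le haα hbα hpx hqx 100
  have ha' : (0 : ℝ) ≤ a := by exact_mod_cast ha
  have hp' : (0 : ℝ) < p := by exact_mod_cast hp
  have hb' : (b : ℝ) ≤ 125000 := by exact_mod_cast hb
  have hq' : (q : ℝ) ≤ 376 := by exact_mod_cast hq
  have hg := abs_le.1 (g1 hBD hREG (α := α) (x := x) (by linarith) (by linarith) (by linarith) (by linarith))
  have h' : (100000000000 : ℝ) < (run a b p q 100).s1l := by exact_mod_cast h
  have h2 := he.s1l
  unfold SR at h2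
  have h3 : 0 < x * G1 0 α x := by linarith [hg.1]
  have hx : 0 < x := by linarith
  exact (pos_iff_pos_of_mul_pos h3).1 hx

theorem neg1 {α x : ℝ} {a b p q : ℤ} (ha : 0 ≤ a) (hp : 0 < p) (haα : (a : ℝ) ≤ 5000 * α)
    (hbα : 5000 * α ≤ b) (hpx : (p : ℝ) ≤ 1000 * x) (hqx : 1000 * x ≤ q) (hb : b ≤ 125000)
    (hq : q ≤ 376) (h : (run a b p q 100).s1u < -100000000000) : G1 0 α x < 0 := by
  have he := enc_run ha hp.le haα hbα hpx hqx 100
  have ha' : (0 : ℝ) ≤ a := by exact_mod_cast ha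
  have hp' : (0 : ℝ) < p := by exact_mod_cast hp
  have hb' : (b : ℝ) ≤ 125000 := by exact_mod_cast hb
  have hq' : (q : ℝ) ≤ 376 := by exact_mod_cast hq
  have hg := abs_le.1 (g1 hBD hREG (α := α) (x := x) (by linarith) (by linarith) (by linarith) (by linarith))
  have h' : ((run a b p q 100).s1u : ℝ) < -100000000000 := by exact_mod_cast h
  have h2 := he.s1u
  unfold SR at h2
  have h3 : x * G1 0 α x < 0 := by linarith [hg.2]
  have hx : 0 < x := by linarith
  by_contra hc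
  push Not at hc
  have := mul_nonneg hx.le hc
  linarith

end main

/-! ### The evaluation -/

set_option maxRecDepth 100000 in
theorem e1 : 100000000000 < (run 121239 121242 374 375 100).s0 ∧
    (run 121239 121242 374 375 100).s2u < -100000000000 := by
  decide +kernel

set_option maxRecDepth 100000 in
theorem e2 : 100000000000 < (run 121239 121242 375 376 100).s0 ∧
    (run 121239 121242 375 376 100).s2u < -100000000000 := by
  decide +kernel

set_option maxRecDepth 100000 in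
theorem e3 : 100000000000 < (run 121239 121240 374 374 100).s1l ∧
    (run 121239 121240 376 376 100).s1u < -100000000000 := by
  decide +kernel

set_option maxRecDepth 100000 in
theorem e4 : 100000000000 < (run 121240 121241 374 374 100).s1l ∧
    (run 121240 121241 376 376 100).s1u < -100000000000 := by
  decide +kernel

set_option maxRecDepth 100000 in
theorem e5 : 100000000000 < (run 121241 121242 374 374 100).s1l ∧
    (run 121241 121242 376 376 100).s1u < -100000000000 := by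
  decide +kernel

theorem num0 : S_BD → S_REG → S_NUM0 := by
  intro hBD hREG
  refine ⟨fun α hα x hx => ?_, fun α hα => ?_⟩
  · obtain ⟨h1, h2⟩ := hα
    obtain ⟨h3, h4⟩ := hx
    unfold aL at h1
    unfold bL at h2
    unfold xl at h3
    unfold xh at h4
    rcases le_total x (375 / 1000) with h | h
    · exact ⟨pos0 hBD hREG (a := 121239) (b := 121242) (p := 374) (q := 375) (by norm_num) (by norm_num)
        (by push_cast; linarith) (by push_cast; linarith) (by push_cast; linarith)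
        (by push_cast; linarith) (by norm_num) (by norm_num) e1.1,
        neg2 hBD hREG (a := 121239) (b := 121242) (p := 374) (q := 375) (by norm_num) (by norm_num)
        (by push_cast; linarith) (by push_cast; linarith) (by push_cast; linarith)
        (by push_cast; linarith) (by norm_num) (by norm_num) e1.2⟩
    · exact ⟨pos0 hBD hREG (a := 121239) (b := 121242) (p := 375) (q := 376) (by norm_num) (by norm_num)
        (by push_cast; linarith) (by push_cast; linarith) (by push_cast; linarith)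
        (by push_cast; linarith) (by norm_num) (by norm_num) e2.1,
        neg2 hBD hREG (a := 121239) (b := 121242) (p := 375) (q := 376) (by norm_num) (by norm_num)
        (by push_cast; linarith) (by push_cast; linarith) (by push_cast; linarith)
        (by push_cast; linarith) (by norm_num) (by norm_num) e2.2⟩
  · obtain ⟨h1, h2⟩ := hα
    unfold aL at h1
    unfold bL at h2
    rcases le_total α (121240 / 5000) with h | h
    · constructor
      · exact pos1 hBD hREG (a := 121239) (b := 121240) (p := 374) (q := 374) (by norm_num) (by norm_num)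
          (by push_cast; linarith) (by push_cast; linarith) (by unfold xl; push_cast; norm_num)
          (by unfold xl; push_cast; norm_num) (by norm_num) (by norm_num) e3.1
      · exact neg1 hBD hREG (a := 121239) (b := 121240) (p := 376) (q := 376) (by norm_num) (by norm_num)
          (by push_cast; linarith) (by push_cast; linarith) (by unfold xh; push_cast; norm_num)
          (by unfold xh; push_cast; norm_num) (by norm_num) (by norm_num) e3.2
    · rcases le_total α (121241 / 5000) with h' | h'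
      · constructor
        · exact pos1 hBD hREG (a := 121240) (b := 121241) (p := 374) (q := 374) (by norm_num) (by norm_num)
            (by push_cast; linarith) (by push_cast; linarith) (by unfold xl; push_cast; norm_num)
            (by unfold xl; push_cast; norm_num) (by norm_num) (by norm_num) e4.1
        · exact neg1 hBD hREG (a := 121240) (b := 121241) (p := 376) (q := 376) (by norm_num) (by norm_num)
            (by push_cast; linarith) (by push_cast; linarith) (by unfold xh; push_cast; norm_num)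
            (by unfold xh; push_cast; norm_num) (by norm_num) (by norm_num) e4.2
      · constructor
        · exact pos1 hBD hREG (a := 121241) (b := 121242) (p := 374) (q := 374) (by norm_num) (by norm_num)
            (by push_cast; linarith) (by push_cast; linarith) (by unfold xl; push_cast; norm_num)
            (by unfold xl; push_cast; norm_num) (by norm_num) (by norm_num) e5.1
        · exact neg1 hBD hREG (a := 121241) (b := 121242) (p := 376) (q := 376) (by norm_num) (by norm_num)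
            (by push_cast; linarith) (by push_cast; linarith) (by unfold xh; push_cast; norm_num)
            (by unfold xh; push_cast; norm_num) (by norm_num) (by norm_num) e5.2

end Pool.Agent.W766.HP.Num0
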